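import Pool.Agent.Lib_helper96.PNI.Defs

/-!
# AQ (MP_892e4c_nt, all quadratics): the near-diagonal pairs of paths, general ends (helper96)

The port of `PNI` to paths `u_0 = v0, u_1, ..., u_9, u_10 = v1` with arbitrary fixed primitive ends,
`D = |det (v0, v1)|`, and with any fixed signs `σ i j` of the determinants. `dl`, `dn`, `DD` are the functions of `PENK`, except at the open edge `10`:
`dl u 10 = -1`, `dn u 10 = 1`; the frame of the base `10` is the standard one.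
`nb`, `ib`, `vx`, `phi`, `Adm`, `Rt`, `ev`, `fE`, `fK`, `rf`, `rot` are those of `PNI`.
-/

set_option autoImplicit false

namespace Pool.Agent.PNV

open Finset Pool.Agent.PENT Pool.Agent.PENK Pool.Agent.PNI

/-- the parameters: `x ^ lo j ≤ |u_j| ≤ x ^ hi j`, the ends `v0`, `v1` -/
structure Prm where
  lo : Fin 11 → ℝ
  hi : Fin 11 → ℝ
  ε : ℝ
  c3 : ℝ
  v0 : ℤ × ℤ
  v1 : ℤ × ℤ
  /-- the signs of the determinants -/
  σ : Fin 11 → Fin 11 → ℤ

/-- the conditions which are symmetric under reflection -/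
structure Prm.Ok (q : Prm) : Prop where
  ε0 : 0 < q.ε
  c30 : 0 < q.c3
  c31 : q.c3 ≤ 1
  l0 : q.lo 0 = 0
  l10 : q.lo 10 = 0
  le : ∀ j, q.lo j ≤ q.hi j
  sm : ∑ j, q.hi j ≤ 1 / 10
  pos : ∀ j, j ≠ 0 → j ≠ 10 → 4 * q.ε ≤ q.lo j
  nar : ∀ j, j ≠ 1 → j ≠ 9 → q.hi j ≤ q.lo j + q.ε / 50
  /-- the even vertices are tiny -/
  tiny : ∀ o : Fin 11, o.val % 2 = 1 →
    4 * (q.hi 2 + q.hi 4 + q.hi 6 + q.hi 8) + 4 * q.ε ≤ q.lo o
  /-- `u_3, u_5, u_7` are large -/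
  big : ∀ i o e : Fin 11, i = 3 ∨ i = 5 ∨ i = 7 → o.val % 2 = 1 → e.val % 2 = 0 →
    q.hi o + q.hi e + 4 * q.ε ≤ 2 * q.lo i

/-- `u_8` is tiny compared with `u_2, u_4, u_6` -/
def Prm.E8 (q : Prm) : Prop := ∀ e : Fin 11, e = 2 ∨ e = 4 ∨ e = 6 → q.hi 8 + 4 * q.ε ≤ q.lo e

/-- all windows are narrow -/
def Prm.Nar (q : Prm) : Prop := ∀ j, q.hi j ≤ q.lo j + q.ε / 50

/-- the signed determinants; `-1` for the open edge -/
def dl (u : PolyK 11) (j : Fin 11) : ℤ := if j = 10 then -1 else dt (u j) (u (j + 1))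

/-- `d_j`; `1` for the open edge -/
def dn (u : PolyK 11) (j : Fin 11) : ℕ := (dl u j).natAbs

/-- the product of the `d_j` -/
def DD (u : PolyK 11) : ℕ := ∏ j, dn u j

/-- the paths -/
structure IsPt (q : Prm) (x : ℝ) (u : PolyK 11) : Prop where
  f0 : u 0 = q.v0
  f1 : u 10 = q.v1
  p0 : Int.gcd (u 0).1 (u 0).2 = 1
  p1 : Int.gcd (u 10).1 (u 10).2 = 1
  lo : ∀ j, x ^ q.lo j ≤ (nr (u j) : ℝ)
  hi : ∀ j, (nr (u j) : ℝ) ≤ x ^ q.hi j
  sg : ∀ i j, i ≠ j → 0 < q.σ i j * dt (u i) (u j)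
  sep : ∀ i j, i ≠ j → q.c3 * nr (u i) * nr (u j) ≤ |(dt (u i) (u j) : ℝ)|
  sq : ∀ j, Squarefree (dn u j)
  co : ∀ i j, i ≠ j → Nat.Coprime (dn u i) (dn u j)
  nd : ∀ j k, k ≠ j → k ≠ j + 1 → Nat.Coprime (dn u j) (dt (u j) (u k)).natAbs
  cD : ∀ j, Nat.Coprime (dn u j) (dt (u 0) (u 10)).natAbs
  sc : q.c3 * nr (u 10) * nr (u 0) ≤ 1

/-- the vertex `u_k` in the frame of the base edge `b` -/
def cb (b : Fin 11) (u : PolyK 11) (k : Fin 11) : ℤ × ℤ :=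
  if b = 10 then (-(u k).2, -(u k).1) else (dt (u k) (u (b + 1)), dt (u b) (u k))

/-- `p` divides the edge `i` of `u` and the edge `l` of `v`, on the same line in the frames of the
base `b` -/
def CL (b : Fin 11) (u v : PolyK 11) (i l : Fin 11) (p : ℕ) : Prop :=
  p ∣ dn u i ∧ p ∣ dn v l ∧ ∀ m ∈ vx b i, ∀ m' ∈ vx b l, (p : ℤ) ∣ dt (cb b u m) (cb b v m')

open Classical in
/-- the common part of the edge `i` of `u` and the edge `l` of `v` -/
noncomputable def dil (b : Fin 11) (u v : PolyK 11) (i l : Fin 11) : ℕ :=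
  ∏ p ∈ ((dn u i).gcd (dn v l)).primeFactors.filter (CL b u v i l), p

open Classical in
/-- the part of the edge `l` of `v` which is common with `u` -/
noncomputable def gl (b : Fin 11) (u v : PolyK 11) (l : Fin 11) : ℕ :=
  ∏ p ∈ (dn v l).primeFactors.filter (fun p => ∃ i, CL b u v i l p), p

/-- the total common part -/
noncomputable def GT (b : Fin 11) (u v : PolyK 11) : ℕ := ∏ l, gl b u v l

/-- the common part of the edges which are not special -/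
noncomputable def GI (b : Fin 11) (u v : PolyK 11) : ℕ := ∏ l ∈ ib b, gl b u v l

/-- near-full pairs -/
structure NP (q : Prm) (x : ℝ) (b : Fin 11) (u v : PolyK 11) : Prop where
  pu : IsPt q x u
  pv : IsPt q x v
  nu : ∀ l, (dn u l : ℝ) ≤ x ^ (q.ε / 10) * gl b v u l
  nv : ∀ l, (dn v l : ℝ) ≤ x ^ (q.ε / 10) * gl b u v l

/-- reflected parameters -/
def Prm.rv (q : Prm) : Prm := ⟨fun j => q.lo (10 - j), fun j => q.hi (10 - j), q.ε, q.c3,
  (q.v1.2, q.v1.1), (q.v0.2, q.v0.1), fun i j => q.σ (10 - j) (10 - i)⟩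

/-- the family of the crude count: `v` in the cell `I` with common parts `G` -/
structure CS (q : Prm) (x : ℝ) (b : Fin 11) (u : PolyK 11) (I G : Fin 11 → ℕ) (v : PolyK 11) :
    Prop where
  pt : IsPt q x v
  siz : Siz I v
  g : ∀ l, gl b u v l = G l

/-- the data of the master count: a path `s.1`, a vector `w = s.2.1` in the frame of the base `b`, numbers
`g_j = s.2.2 j ∣ dn u j`; the vertices in `O` (odd, off the base) are parallel to `w` modulo the `g` of their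
two edges, and the even vertices are not parallel to `w` -/
structure MD (q : Prm) (x : ℝ) (b : Fin 11) (O : Finset (Fin 11)) (I : Fin 11 → ℕ)
    (s : PolyK 11 × (ℤ × ℤ) × (Fin 11 → ℕ)) : Prop where
  pt : IsPt q x s.1
  siz : Siz I s.1
  wp : Int.gcd s.2.1.1 s.2.1.2 = 1
  wb : |(s.2.1.1 : ℝ)| ≤ x ∧ |(s.2.1.2 : ℝ)| ≤ x
  dv : ∀ j, s.2.2 j ∣ dn s.1 j
  par : ∀ i ∈ O, (s.2.2 (i - 1) : ℤ) ∣ dt (cb b s.1 i) s.2.1 ∧
    (s.2.2 i : ℤ) ∣ dt (cb b s.1 i) s.2.1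
  evd : ∀ i ∈ O, ∀ j, j = i - 1 ∨ j = i → (s.2.2 j : ℤ) ∣ dt (cb b s.1 (ev j)) s.2.1 ∧
    dt (cb b s.1 (ev j)) s.2.1 ≠ 0

end Pool.Agent.PNV
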